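import Mathlib

set_option autoImplicit false

/-!
# Affine forms and one direction
-/

namespace Pool.Agent.Lib.MP_64d474_lc.OD

open MvPolynomial

universe u

variable {F : Type u} [Field F] {n : ℕ}

/-- the coefficient of `x_i` in an affine form -/
noncomputable def lc (i : Fin n) (p : MvPolynomial (Fin n) F) : F := coeff (Finsupp.single i 1) p

theorem affine_form {p : MvPolynomial (Fin n) F} (hp : p.totalDegree ≤ 1) :
    p = C (coeff 0 p) + ∑ j, C (lc j p) * X j := by
  classical
  apply MvPolynomial.ext
  intro m
  rw [coeff_add, coeff_sum]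
  have h1 : ∀ j : Fin n, coeff m (C (lc j p) * X j) =
      if Finsupp.single j 1 = m then lc j p else 0 := by
    intro j
    rw [coeff_C_mul, coeff_X]
    split_ifs <;> simp
  simp only [h1]
  by_cases hm0 : m = 0
  · subst hm0
    simp
  · by_cases hm1 : ∃ i, m = Finsupp.single i 1
    · obtain ⟨i, rfl⟩ := hm1
      rw [coeff_C, if_neg (Ne.symm hm0), zero_add, Finset.sum_eq_single i]
      · simp [lc]
      · intro j _ hj
        rw [if_neg]
        intro h
        exact hj ((Finsupp.single_left_inj one_ne_zero).1 h)
      · simp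
    · rw [coeff_C, if_neg (Ne.symm hm0), zero_add, Finset.sum_eq_zero]
      · by_contra hne
        have hmem : m ∈ p.support := mem_support_iff.2 hne
        have h2 := (le_totalDegree hmem).trans hp
        rcases Nat.lt_or_ge (m.sum fun _ e => e) 1 with h3 | h3
        · apply hm0
          have h4 : (m.sum fun _ e => e) = 0 := by omega
          ext i
          by_contra hi
          have h5 : m i ≤ m.sum fun _ e => e := by
            rw [Finsupp.sum]
            exact Finset.single_le_sum (f := fun i => m i) (fun _ _ => Nat.zero_le _)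
              (Finsupp.mem_support_iff.2 hi)
          simp only [Finsupp.coe_zero, Pi.zero_apply] at hi
          omega
        · have h4 : (m.sum fun _ e => e) = 1 := by omega
          apply hm1
          have h6 : m.support.Nonempty := Finsupp.support_nonempty_iff.2 hm0
          obtain ⟨i, hi⟩ := h6
          refine ⟨i, ?_⟩
          have h7 : 1 ≤ m i := Nat.one_le_iff_ne_zero.2 (Finsupp.mem_support_iff.1 hi)
          have h8 : m i ≤ m.sum fun _ e => e := by
            rw [Finsupp.sum]
            exact Finset.single_le_sum (f := fun i => m i) (fun _ _ => Nat.zero_le _) hi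
          ext j
          by_cases hj : j = i
          · subst hj; rw [Finsupp.single_eq_same]; omega
          · rw [Finsupp.single_eq_of_ne hj]
            by_contra hj0
            have h9 : m i + m j ≤ m.sum fun _ e => e := by
              rw [Finsupp.sum]
              have := Finset.add_le_sum (s := m.support) (f := fun i => m i)
                (fun _ _ => Nat.zero_le _) hi (Finsupp.mem_support_iff.2 hj0) (Ne.symm hj)
              exact this
            omega
      · intro j _
        rw [if_neg]
        intro h
        exact hm1 ⟨j, h.symm⟩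

/-- `x ↦ x + ρ e_i + T e_i` -/
noncomputable def psi (i : Fin n) (ρ : MvPolynomial (Fin n) F) :
    MvPolynomial (Fin n) F →ₐ[F] Polynomial (MvPolynomial (Fin n) F) :=
  aeval fun j => if j = i then Polynomial.C (X i + ρ) + Polynomial.X else Polynomial.C (X j)

/-- `x ↦ x + ρ e_i` -/
noncomputable def sig (i : Fin n) (ρ : MvPolynomial (Fin n) F) :
    MvPolynomial (Fin n) F →ₐ[F] MvPolynomial (Fin n) F :=
  aeval fun j => if j = i then X i + ρ else X j

theorem sig_affine (i : Fin n) (ρ : MvPolynomial (Fin n) F) {p : MvPolynomial (Fin n) F}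
    (hp : p.totalDegree ≤ 1) : sig i ρ p = p + C (lc i p) * ρ := by
  classical
  have h : sig i ρ p = C (coeff 0 p) + ∑ j, C (lc j p) * (if j = i then X i + ρ else X j) := by
    conv_lhs => rw [affine_form hp]
    simp only [map_add, map_sum, map_mul, sig, aeval_X]
    simp only [← algebraMap_eq, AlgHom.commutes]
  rw [h]
  have h2 : ∑ j, C (lc j p) * (if j = i then X i + ρ else X j) =
      (∑ j, C (lc j p) * X j) + C (lc i p) * ρ := by
    have h3 : ∀ j : Fin n, C (lc j p) * (if j = i then X i + ρ else X j) =
        C (lc j p) * X j + (if j = i then C (lc j p) * ρ else 0) := by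
      intro j
      split_ifs with h
      · subst h; ring
      · ring
    rw [Finset.sum_congr rfl fun j _ => h3 j, Finset.sum_add_distrib]
    simp
  rw [h2, ← add_assoc, ← affine_form hp]

theorem psi_affine (i : Fin n) (ρ : MvPolynomial (Fin n) F) {p : MvPolynomial (Fin n) F}
    (hp : p.totalDegree ≤ 1) :
    psi i ρ p = Polynomial.C (sig i ρ p) + Polynomial.C (C (lc i p)) * Polynomial.X := by
  classical
  have h : psi i ρ p = Polynomial.C (C (coeff 0 p)) + ∑ j, Polynomial.C (C (lc j p)) *
      (if j = i then Polynomial.C (X i + ρ) + Polynomial.X else Polynomial.C (X j)) := by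
    conv_lhs => rw [affine_form hp]
    simp only [map_add, map_sum, map_mul, psi, aeval_X]
    simp only [← algebraMap_eq, AlgHom.commutes, Polynomial.algebraMap_apply]
  have h' : sig i ρ p = C (coeff 0 p) + ∑ j, C (lc j p) * (if j = i then X i + ρ else X j) := by
    conv_lhs => rw [affine_form hp]
    simp only [map_add, map_sum, map_mul, sig, aeval_X]
    simp only [← algebraMap_eq, AlgHom.commutes]
  have h3 : ∀ j : Fin n, Polynomial.C (C (lc j p)) *
      (if j = i then Polynomial.C (X i + ρ) + Polynomial.X else Polynomial.C (X j)) =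
      Polynomial.C (C (lc j p) * (if j = i then X i + ρ else X j)) +
        (if j = i then Polynomial.C (C (lc j p)) * Polynomial.X else 0) := by
    intro j
    split_ifs with h
    · rw [Polynomial.C_mul]; ring
    · rw [Polynomial.C_mul]; ring
  rw [h, h', Finset.sum_congr rfl fun j _ => h3 j, Finset.sum_add_distrib, Polynomial.C_add,
    map_sum]
  simp [add_assoc]

/-- all coefficients have total degree at most `D` -/
def DegP (D : ℕ) (P : Polynomial (MvPolynomial (Fin n) F)) : Prop :=
  ∀ j, (P.coeff j).totalDegree ≤ D

theorem DegP.mul {a b : ℕ} {P Q : Polynomial (MvPolynomial (Fin n) F)} (hP : DegP a P)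
    (hQ : DegP b Q) : DegP (a + b) (P * Q) := by
  intro j
  rw [Polynomial.coeff_mul]
  refine totalDegree_finsetSum_le fun x _ => ?_
  exact (totalDegree_mul _ _).trans (Nat.add_le_add (hP _) (hQ _))

theorem DegP.one : DegP 0 (1 : Polynomial (MvPolynomial (Fin n) F)) := by
  intro j
  rw [Polynomial.coeff_one]
  split_ifs <;> simp

theorem DegP.pow {a : ℕ} {P : Polynomial (MvPolynomial (Fin n) F)} (hP : DegP a P) (e : ℕ) :
    DegP (e * a) (P ^ e) := by
  induction e with
  | zero => simpa using DegP.one
  | succ e ih =>
    rw [pow_succ, Nat.succ_mul]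
    exact ih.mul hP

theorem DegP.prod {ι : Type*} (s : Finset ι) (a : ι → ℕ)
    (P : ι → Polynomial (MvPolynomial (Fin n) F)) (h : ∀ i ∈ s, DegP (a i) (P i)) :
    DegP (∑ i ∈ s, a i) (∏ i ∈ s, P i) := by
  classical
  induction s using Finset.induction_on with
  | empty => simpa using DegP.one
  | insert x s hx ih =>
    rw [Finset.sum_insert hx, Finset.prod_insert hx]
    exact (h x (Finset.mem_insert_self _ _)).mul (ih fun i hi => h i (Finset.mem_insert_of_mem hi))

theorem DegP.psi (i : Fin n) {ρ : MvPolynomial (Fin n) F} (hρ : ρ.totalDegree ≤ 1) {D : ℕ}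
    {p : MvPolynomial (Fin n) F} (hp : p.totalDegree ≤ D) : DegP D (OD.psi i ρ p) := by
  classical
  have hX : ∀ j : Fin n, DegP 1 (if j = i then Polynomial.C (X i + ρ) + Polynomial.X
      else Polynomial.C (X j) : Polynomial (MvPolynomial (Fin n) F)) := by
    intro j t
    split_ifs with h
    · rw [Polynomial.coeff_add, Polynomial.coeff_C, Polynomial.coeff_X]
      refine (totalDegree_add _ _).trans (max_le ?_ ?_)
      · split_ifs
        · exact (totalDegree_add _ _).trans (max_le ((totalDegree_X i).le) hρ)
        · simp
      · split_ifs <;> simp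
    · rw [Polynomial.coeff_C]
      split_ifs
      · exact (totalDegree_X j).le
      · simp
  intro t
  rw [OD.psi, aeval_def, eval₂_eq', Polynomial.finsetSum_coeff]
  refine totalDegree_finsetSum_le fun e he => ?_
  have h1 : DegP (∑ j, e j * 1) (∏ j, (if j = i then Polynomial.C (X i + ρ) + Polynomial.X
      else Polynomial.C (X j) : Polynomial (MvPolynomial (Fin n) F)) ^ e j) :=
    DegP.prod _ _ _ fun j _ => (hX j).pow (e j)
  have h2 : (algebraMap F (Polynomial (MvPolynomial (Fin n) F))) (coeff e p) =
      Polynomial.C (C (coeff e p)) := rfl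
  rw [h2, Polynomial.coeff_C_mul]
  refine (totalDegree_mul _ _).trans ?_
  rw [totalDegree_C, zero_add]
  refine (h1 t).trans ?_
  have h3 := (le_totalDegree he).trans hp
  rw [Finsupp.sum_fintype _ _ (fun _ => rfl)] at h3
  simpa using h3

/-- going back -/
theorem eval_psi (i : Fin n) (ρ p : MvPolynomial (Fin n) F) :
    Polynomial.eval (-ρ) (psi i ρ p) = p := by
  have : ((Polynomial.aeval (-ρ) : Polynomial (MvPolynomial (Fin n) F) →ₐ[MvPolynomial (Fin n) F]
      MvPolynomial (Fin n) F).restrictScalars F).comp (psi i ρ) = AlgHom.id F _ := by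
    apply MvPolynomial.algHom_ext
    intro j
    rw [AlgHom.comp_apply, psi, aeval_X]
    by_cases h : j = i
    · subst h
      simp
    · simp [h]
  have h2 := AlgHom.congr_fun this p
  simpa [Polynomial.aeval_def, Polynomial.eval₂_eq_eval_map] using h2

theorem pow_dvd_of_coeff {i : Fin n} {ρ p : MvPolynomial (Fin n) F} {μ : ℕ}
    (h : ∀ j < μ, (psi i ρ p).coeff j = 0) : (-ρ) ^ μ ∣ p := by
  obtain ⟨Q, hQ⟩ := Polynomial.X_pow_dvd_iff.2 h
  refine ⟨Polynomial.eval (-ρ) Q, ?_⟩
  have := eval_psi i ρ p
  rw [hQ, Polynomial.eval_mul, Polynomial.eval_pow, Polynomial.eval_X] at this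
  exact this.symm

/-- points -/
theorem eval_map_psi (i : Fin n) (ρ p : MvPolynomial (Fin n) F) (x : Fin n → F) (τ : F) :
    Polynomial.eval τ ((psi i ρ p).map (eval x)) =
      eval (fun j => if j = i then x i + eval x ρ + τ else x j) p := by
  have : ((Polynomial.evalRingHom τ).comp ((Polynomial.mapRingHom (eval x)).comp
      (psi i ρ).toRingHom)) =
      (eval (fun j => if j = i then x i + eval x ρ + τ else x j)) := by
    apply MvPolynomial.ringHom_ext
    · intro c
      have h1 : (psi i ρ) (C c) = Polynomial.C (C c) := by
        rw [← algebraMap_eq, AlgHom.commutes]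
        rfl
      simp [h1]
    · intro j
      have h1 : (psi i ρ) (X j) = if j = i then Polynomial.C (X i + ρ) + Polynomial.X
          else Polynomial.C (X j) := by rw [psi, aeval_X]
      simp only [RingHom.comp_apply, AlgHom.toRingHom_eq_coe, RingHom.coe_coe, h1]
      by_cases h : j = i
      · subst h; simp
      · simp [h]
  exact RingHom.congr_fun this p

end Pool.Agent.Lib.MP_64d474_lc.OD
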