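import Mathlib
import Pool.Agent.Lib.MP_64d474_lc.S3.Hit35b
import Pool.Agent.Lib.MP_64d474_lc.OD.Aff23

set_option autoImplicit false

/-!
# Sums of products that share all but `k` of their affine factors
-/

namespace Pool.Agent.Lib.MP_64d474_lc.OD

open MvPolynomial

universe u

variable {F : Type u} [Field F] {n : ℕ}

/-- the span of the products `c ∏ R` with `S + R = L`, at most `k` members of `L` in `S` (missing),
and `c` of degree at most `D` -/
noncomputable def Sp (k D : ℕ) (L : Multiset (MvPolynomial (Fin n) F)) :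
    Submodule F (MvPolynomial (Fin n) F) :=
  Submodule.span F {p | ∃ S R : Multiset (MvPolynomial (Fin n) F), S + R = L ∧ S.card ≤ k ∧
    ∃ c : MvPolynomial (Fin n) F, c.totalDegree ≤ D ∧ p = c * R.prod}

theorem sp_gen {k D : ℕ} {L S R : Multiset (MvPolynomial (Fin n) F)} (h : S + R = L)
    (hk : S.card ≤ k) {c : MvPolynomial (Fin n) F} (hc : c.totalDegree ≤ D) :
    c * R.prod ∈ Sp k D L :=
  Submodule.subset_span ⟨S, R, h, hk, c, hc, rfl⟩

theorem sp_mono {k k' D : ℕ} (h : k ≤ k') (L : Multiset (MvPolynomial (Fin n) F)) :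
    Sp k D L ≤ Sp k' D L :=
  Submodule.span_mono fun _ ⟨S, R, h1, h2, c, hc⟩ => ⟨S, R, h1, h2.trans h, c, hc⟩

theorem sp_mul {k D : ℕ} {L : Multiset (MvPolynomial (Fin n) F)} {p : MvPolynomial (Fin n) F}
    (m : MvPolynomial (Fin n) F) (hp : p ∈ Sp k D L) : p * m ∈ Sp k D (m ::ₘ L) := by
  induction hp using Submodule.span_induction with
  | mem x hx =>
    obtain ⟨S, R, h1, h2, c, hc, rfl⟩ := hx
    have h3 : c * R.prod * m = c * (m ::ₘ R).prod := by rw [Multiset.prod_cons]; ring
    rw [h3]
    exact sp_gen (by rw [Multiset.add_cons, h1]) h2 hc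
  | zero => rw [zero_mul]; exact Submodule.zero_mem _
  | add x y _ _ hx hy => rw [add_mul]; exact Submodule.add_mem _ hx hy
  | smul a x _ hx => rw [smul_mul_assoc]; exact Submodule.smul_mem _ _ hx

theorem sp_cons {k D : ℕ} {L : Multiset (MvPolynomial (Fin n) F)} {p : MvPolynomial (Fin n) F}
    (m : MvPolynomial (Fin n) F) (hp : p ∈ Sp k D L) : p ∈ Sp (k + 1) D (m ::ₘ L) := by
  induction hp using Submodule.span_induction with
  | mem x hx =>
    obtain ⟨S, R, h1, h2, c, hc, rfl⟩ := hx
    exact sp_gen (S := m ::ₘ S) (by rw [Multiset.cons_add, h1])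
      (by rw [Multiset.card_cons]; omega) hc
  | zero => exact Submodule.zero_mem _
  | add x y _ _ hx hy => exact Submodule.add_mem _ hx hy
  | smul a x _ hx => exact Submodule.smul_mem _ _ hx

/-- nonzero affine forms -/
def Aff (p : MvPolynomial (Fin n) F) : Prop := p ≠ 0 ∧ p.totalDegree ≤ 1

theorem isUnit_of_deg {p : MvPolynomial (Fin n) F} (hp : p ≠ 0) (h : p.totalDegree = 0) :
    ∃ c : F, c ≠ 0 ∧ p = C c := by
  rw [totalDegree_eq_zero_iff_eq_C] at h
  refine ⟨coeff 0 p, ?_, h⟩
  intro h0
  rw [h0, C_0] at h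
  exact hp h

theorem deg_of_not_unit {p : MvPolynomial (Fin n) F} (hp : Aff p) (h : ¬ IsUnit p) :
    p.totalDegree = 1 := by
  rcases Nat.lt_or_ge p.totalDegree 1 with h1 | h1
  · obtain ⟨c, hc, rfl⟩ := isUnit_of_deg hp.1 (by omega)
    exact absurd ((Ne.isUnit hc).map C) h
  · exact le_antisymm hp.2 h1

theorem irreducible_of_aff {p : MvPolynomial (Fin n) F} (hp : Aff p) (h : ¬ IsUnit p) :
    Irreducible p := by
  refine ⟨h, fun a b hab => ?_⟩
  have ha : a ≠ 0 := by rintro rfl; exact hp.1 (by rw [hab, zero_mul])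
  have hb : b ≠ 0 := by rintro rfl; exact hp.1 (by rw [hab, mul_zero])
  have h1 := totalDegree_mul_of_isDomain ha hb
  rw [← hab] at h1
  have h2 := hp.2
  rcases Nat.eq_zero_or_pos a.totalDegree with h3 | h3
  · obtain ⟨c, hc, rfl⟩ := isUnit_of_deg ha h3
    exact Or.inl ((Ne.isUnit hc).map C)
  · obtain ⟨c, hc, rfl⟩ := isUnit_of_deg hb (by omega)
    exact Or.inr ((Ne.isUnit hc).map C)

theorem eq_of_dvd {l m : MvPolynomial (Fin n) F} (hl : Aff l) (hu : ¬ IsUnit l) (hm : Aff m)
    (h : l ∣ m) : ∃ c : F, c ≠ 0 ∧ m = C c * l := by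
  obtain ⟨y, rfl⟩ := h
  have hy : y ≠ 0 := by rintro rfl; exact hm.1 (by rw [mul_zero])
  have h1 := totalDegree_mul_of_isDomain hl.1 hy
  have h2 := deg_of_not_unit hl hu
  have h3 := hm.2
  obtain ⟨c, hc, rfl⟩ := isUnit_of_deg hy (by omega)
  exact ⟨c, hc, mul_comm _ _⟩

theorem prod_of_dvd {l : MvPolynomial (Fin n) F} (hl : Aff l) (hu : ¬ IsUnit l)
    (M : Multiset (MvPolynomial (Fin n) F)) (hM : ∀ m ∈ M, Aff m ∧ l ∣ m) :
    ∃ c : F, c ≠ 0 ∧ M.prod = C c * l ^ M.card := by
  induction M using Multiset.induction_on with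
  | empty => exact ⟨1, one_ne_zero, by simp⟩
  | cons m M ih =>
    obtain ⟨c, hc, h1⟩ := ih fun x hx => hM x (Multiset.mem_cons_of_mem hx)
    obtain ⟨d, hd, h2⟩ := eq_of_dvd hl hu (hM m (Multiset.mem_cons_self _ _)).1
      (hM m (Multiset.mem_cons_self _ _)).2
    refine ⟨d * c, mul_ne_zero hd hc, ?_⟩
    rw [Multiset.prod_cons, h1, Multiset.card_cons, pow_succ, C_mul]
    conv_lhs => rw [h2]
    ring

open Classical in
/-- the product divides if the product of every class divides -/
theorem prod_dvd_of_classes (N : ℕ) : ∀ (L : Multiset (MvPolynomial (Fin n) F)), L.card = N →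
    (∀ l ∈ L, Aff l) → ∀ p : MvPolynomial (Fin n) F,
    (∀ l ∈ L, ¬ IsUnit l → (L.filter (fun m => l ∣ m)).prod ∣ p) → L.prod ∣ p := by
  induction N using Nat.strong_induction_on with
  | _ N ih =>
    intro L hN hL p hp
    rcases L.empty_or_exists_mem with rfl | ⟨l, hl⟩
    · simp
    by_cases hu : IsUnit l
    · obtain ⟨L₀, rfl⟩ := Multiset.exists_cons_of_mem hl
      rw [Multiset.prod_cons, IsUnit.mul_left_dvd hu]
      refine ih L₀.card (by rw [← hN, Multiset.card_cons]; omega) L₀ rfl
        (fun m hm => hL m (Multiset.mem_cons_of_mem hm)) p fun m hm hmu => ?_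
      exact dvd_trans (Multiset.prod_dvd_prod_of_le
        (Multiset.filter_le_filter _ (Multiset.le_cons_self _ _)))
        (hp m (Multiset.mem_cons_of_mem hm) hmu)
    · set A := L.filter (fun m => l ∣ m) with hA
      set B := L.filter (fun m => ¬ l ∣ m) with hB
      have hAB : A + B = L := Multiset.filter_add_not _ _
      obtain ⟨q, hq⟩ := hp l hl hu
      have hAc : 0 < A.card := Multiset.card_pos_iff_exists_mem.2
        ⟨l, Multiset.mem_filter.2 ⟨hl, dvd_rfl⟩⟩
      have hBc : B.card < N := by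
        rw [← hN, ← hAB, Multiset.card_add]; omega
      have hB2 : B.prod ∣ q := by
        refine ih B.card hBc B rfl (fun m hm => hL m (Multiset.mem_filter.1 hm).1) q
          fun m hm hmu => ?_
        have h1 : (B.filter (fun x => m ∣ x)).prod ∣ A.prod * q := by
          rw [← hq]
          refine dvd_trans (Multiset.prod_dvd_prod_of_le
            (Multiset.filter_le_filter _ (Multiset.filter_le _ _))) ?_
          exact hp m (Multiset.mem_filter.1 hm).1 hmu
        refine UniqueFactorizationMonoid.dvd_of_dvd_mul_right_of_no_prime_factors ?_ ?_ h1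
        · rw [Ne, Multiset.prod_eq_zero_iff]
          intro h0
          have h2 := (Multiset.mem_filter.1 (Multiset.mem_filter.1 h0).1).1
          exact (hL _ h2).1 rfl
        · intro d hd1 hd2 hdp
          obtain ⟨a, ha1, ha2⟩ := hdp.exists_mem_multiset_dvd hd1
          obtain ⟨b, hb1, hb2⟩ := hdp.exists_mem_multiset_dvd hd2
          have hb3 := Multiset.mem_filter.1 hb1
          obtain ⟨c, hc, h3⟩ := eq_of_dvd (hL l hl) hu (hL b hb3.1) hb3.2
          rw [h3] at hb2
          have hdl : d ∣ l := by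
            rcases hdp.dvd_or_dvd hb2 with h4 | h4
            · exact absurd (isUnit_of_dvd_unit h4 ((Ne.isUnit hc).map C)) hdp.not_isUnit
            · exact h4
          have h5 : l ∣ d := (hdp.irreducible.dvd_symm (irreducible_of_aff (hL l hl) hu) hdl)
          have ha3 := Multiset.mem_filter.1 (Multiset.mem_filter.1 ha1).1
          exact ha3.2 (h5.trans ha2)
      rw [← hAB, Multiset.prod_add, hq]
      exact mul_dvd_mul_left _ hB2

/-- the coefficients of a product in the direction -/
theorem coeff_mem_aux (i : Fin n) {ρ : MvPolynomial (Fin n) F} (hρ : ρ.totalDegree ≤ 1)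
    {D : ℕ} {c : MvPolynomial (Fin n) F} (hc : c.totalDegree ≤ D)
    (S : Multiset (MvPolynomial (Fin n) F)) (R : Multiset (MvPolynomial (Fin n) F))
    (hR : ∀ m ∈ R, Aff m) (t : ℕ) :
    (psi i ρ (c * R.prod)).coeff t ∈ Sp (S.card + t) D ((S + R).map (sig i ρ)) := by
  induction R using Multiset.induction_on generalizing t with
  | empty =>
    have h := sp_gen (k := S.card + t) (D := D) (L := (S + 0).map (sig i ρ))
      (S := S.map (sig i ρ)) (R := 0) (c := (psi i ρ c).coeff t)
      (by simp) (by simp) (DegP.psi i hρ hc t)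
    simpa using h
  | cons m R ih =>
    have h1 : psi i ρ (c * (m ::ₘ R).prod) = psi i ρ (c * R.prod) *
        (Polynomial.C (sig i ρ m) + Polynomial.C (C (lc i m)) * Polynomial.X) := by
      rw [← psi_affine i ρ (hR m (Multiset.mem_cons_self _ _)).2, ← map_mul, Multiset.prod_cons]
      congr 1; ring
    have hR' : ∀ x ∈ R, Aff x := fun x hx => hR x (Multiset.mem_cons_of_mem hx)
    rw [h1, mul_add, Polynomial.coeff_add, Multiset.add_cons, Multiset.map_cons]
    refine Submodule.add_mem _ ?_ ?_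
    · rw [Polynomial.coeff_mul_C]
      exact sp_mul _ (ih hR' t)
    · cases t with
      | zero =>
        rw [← mul_assoc, Polynomial.mul_coeff_zero, Polynomial.coeff_X_zero, mul_zero]
        exact Submodule.zero_mem _
      | succ t =>
        rw [← mul_assoc, Polynomial.coeff_mul_X, Polynomial.coeff_mul_C]
        have h2 : (psi i ρ (c * R.prod)).coeff t * C (lc i m) =
            lc i m • (psi i ρ (c * R.prod)).coeff t := by
          rw [mul_comm, C_mul']
        rw [h2, ← add_assoc]
        exact Submodule.smul_mem _ _ (sp_cons _ (ih hR' t))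

open Classical in
theorem coeff_mem (i : Fin n) {l ρ : MvPolynomial (Fin n) F} (hl : Aff l) (hu : ¬ IsUnit l)
    (hρ : ρ.totalDegree ≤ 1) (h0 : sig i ρ l = 0) {k D : ℕ}
    {L : Multiset (MvPolynomial (Fin n) F)} (hL : ∀ m ∈ L, Aff m)
    {p : MvPolynomial (Fin n) F} (hp : p ∈ Sp (k + 1) D L) {j : ℕ}
    (hj : j < (L.filter (fun m => l ∣ m)).card) :
    (psi i ρ p).coeff j ∈ Sp k D ((L.filter (fun m => ¬ l ∣ m)).map (sig i ρ)) := by
  induction hp using Submodule.span_induction with
  | mem x hx =>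
    obtain ⟨S, R, h1, h2, c, hc, rfl⟩ := hx
    have hR : ∀ m ∈ R, Aff m := fun m hm => hL m (h1 ▸ Multiset.mem_add.2 (Or.inr hm))
    obtain ⟨κ, hκ, h3⟩ := prod_of_dvd hl hu (R.filter (fun m => l ∣ m)) fun m hm =>
      ⟨hR m (Multiset.mem_filter.1 hm).1, (Multiset.mem_filter.1 hm).2⟩
    have h4 : psi i ρ (c * R.prod) =
        Polynomial.C (C (κ * lc i l ^ (R.filter (fun m => l ∣ m)).card)) *
        (psi i ρ (c * (R.filter (fun m => ¬ l ∣ m)).prod) *
          Polynomial.X ^ (R.filter (fun m => l ∣ m)).card) := by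
      have h5 : R.prod = (R.filter (fun m => l ∣ m)).prod *
          (R.filter (fun m => ¬ l ∣ m)).prod := by
        rw [← Multiset.prod_add, Multiset.filter_add_not]
      have h6 : psi i ρ l = Polynomial.C (C (lc i l)) * Polynomial.X := by
        rw [psi_affine i ρ hl.2, h0, map_zero, zero_add]
      have h7 : psi i ρ (C κ) = Polynomial.C (C κ) := by
        rw [← algebraMap_eq, AlgHom.commutes]
        rfl
      rw [h5, h3, map_mul, map_mul, map_mul, map_pow, h6, h7, mul_pow, C_mul, C_pow,
        Polynomial.C_mul, Polynomial.C_pow, map_mul]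
      ring
    rw [h4, Polynomial.coeff_C_mul, Polynomial.coeff_mul_X_pow', C_mul']
    refine Submodule.smul_mem _ _ ?_
    split_ifs with h8
    · have h9 := coeff_mem_aux i hρ hc (S.filter (fun m => ¬ l ∣ m))
        (R.filter (fun m => ¬ l ∣ m)) (fun m hm => hR m (Multiset.mem_filter.1 hm).1)
        (j - (R.filter (fun m => l ∣ m)).card)
      rw [← Multiset.filter_add, h1] at h9
      refine sp_mono ?_ _ h9
      have h10 : (L.filter (fun m => l ∣ m)).card = (S.filter (fun m => l ∣ m)).card +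
          (R.filter (fun m => l ∣ m)).card := by
        rw [← h1, Multiset.filter_add, Multiset.card_add]
      have h11 : S.card = (S.filter (fun m => l ∣ m)).card +
          (S.filter (fun m => ¬ l ∣ m)).card := by
        rw [← Multiset.card_add, Multiset.filter_add_not]
      omega
    · exact Submodule.zero_mem _
  | zero => simp
  | add x y _ _ hx hy => rw [map_add, Polynomial.coeff_add]; exact Submodule.add_mem _ hx hy
  | smul a x _ hx =>
    rw [map_smul, Polynomial.coeff_smul]
    exact Submodule.smul_mem _ _ hx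

theorem totalDegree_sp {k D : ℕ} {L : Multiset (MvPolynomial (Fin n) F)} (hL : ∀ m ∈ L, m ≠ 0)
    {p : MvPolynomial (Fin n) F} (hp : p ∈ Sp k D L) :
    p.totalDegree ≤ D + L.prod.totalDegree := by
  induction hp using Submodule.span_induction with
  | mem x hx =>
    obtain ⟨S, R, h1, h2, c, hc, rfl⟩ := hx
    have hS0 : S.prod ≠ 0 := by
      rw [Ne, Multiset.prod_eq_zero_iff]
      intro h0
      exact hL 0 (h1 ▸ Multiset.mem_add.2 (Or.inl h0)) rfl
    have hR0 : R.prod ≠ 0 := by
      rw [Ne, Multiset.prod_eq_zero_iff]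
      intro h0
      exact hL 0 (h1 ▸ Multiset.mem_add.2 (Or.inr h0)) rfl
    rw [← h1, Multiset.prod_add, totalDegree_mul_of_isDomain hS0 hR0]
    refine (totalDegree_mul _ _).trans ?_
    omega
  | zero => simp
  | add x y _ _ hx hy => exact (totalDegree_add _ _).trans (max_le hx hy)
  | smul a x _ hx => exact (totalDegree_smul_le _ _).trans hx

theorem sp_zero {D : ℕ} {L : Multiset (MvPolynomial (Fin n) F)}
    {p : MvPolynomial (Fin n) F} (hp : p ∈ Sp 0 D L) : L.prod ∣ p := by
  induction hp using Submodule.span_induction with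
  | mem x hx =>
    obtain ⟨S, R, h1, h2, c, hc, rfl⟩ := hx
    have h3 : S = 0 := Multiset.card_eq_zero.1 (Nat.le_zero.1 h2)
    rw [h3, zero_add] at h1
    rw [h1]
    exact dvd_mul_left _ _
  | zero => exact dvd_zero _
  | add x y _ _ hx hy => exact dvd_add hx hy
  | smul a x _ hx => exact hx.trans (by rw [smul_eq_C_mul]; exact dvd_mul_left _ _)

theorem exists_lc {l : MvPolynomial (Fin n) F} (hl : Aff l) (hu : ¬ IsUnit l) :
    ∃ i, lc i l ≠ 0 := by
  by_contra h
  push Not at h
  have h1 := affine_form hl.2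
  simp only [h, C_0, zero_mul, Finset.sum_const_zero, add_zero] at h1
  have h2 := deg_of_not_unit hl hu
  rw [h1, totalDegree_C] at h2
  exact zero_ne_one h2

/-- the main theorem -/
theorem exists_flat [Infinite F] (D : ℕ) (k : ℕ) :
    ∀ (L : Multiset (MvPolynomial (Fin n) F)), (∀ l ∈ L, Aff l) →
    ∀ p ∈ Sp k D L, p ≠ 0 →
    ∃ I : Finset (Fin n), I.card ≤ k ∧ ∃ Q : Multiset (MvPolynomial (Fin n) F),
      (∀ b ∈ Q, b ≠ 0 ∧ b.totalDegree ≤ max 1 D) ∧
      ∀ o : Fin n → F, (∀ b ∈ Q, eval o b ≠ 0) →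
        ∃ w : Fin n → F, (∀ i, i ∉ I → w i = 0) ∧ eval (fun i => o i + w i) p ≠ 0 := by
  classical
  have key : ∀ (k : ℕ) (L : Multiset (MvPolynomial (Fin n) F)), (∀ l ∈ L, Aff l) →
      ∀ p ∈ Sp k D L, p ≠ 0 → L.prod ∣ p →
      ∃ I : Finset (Fin n), I.card ≤ k ∧ ∃ Q : Multiset (MvPolynomial (Fin n) F),
      (∀ b ∈ Q, b ≠ 0 ∧ b.totalDegree ≤ max 1 D) ∧
      ∀ o : Fin n → F, (∀ b ∈ Q, eval o b ≠ 0) →
        ∃ w : Fin n → F, (∀ i, i ∉ I → w i = 0) ∧ eval (fun i => o i + w i) p ≠ 0 := by
    intro k L hL p hp hp0 hd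
    obtain ⟨c, hc⟩ := hd
    have hc0 : c ≠ 0 := by rintro rfl; exact hp0 (by rw [hc, mul_zero])
    have hL0 : L.prod ≠ 0 := by rintro h; exact hp0 (by rw [hc, h, zero_mul])
    have h1 := totalDegree_sp (fun m hm => (hL m hm).1) hp
    rw [hc, totalDegree_mul_of_isDomain hL0 hc0] at h1
    refine ⟨∅, by simp, c ::ₘ L, ?_, ?_⟩
    · intro b hb
      rcases Multiset.mem_cons.1 hb with rfl | hb
      · exact ⟨hc0, le_max_of_le_right (by omega)⟩
      · exact ⟨(hL b hb).1, le_max_of_le_left (hL b hb).2⟩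
    · intro o ho
      refine ⟨0, by simp, ?_⟩
      simp only [Pi.zero_apply, add_zero]
      rw [hc, map_mul]
      refine mul_ne_zero ?_ (ho c (Multiset.mem_cons_self _ _))
      rw [map_multiset_prod, Ne, Multiset.prod_eq_zero_iff, Multiset.mem_map]
      rintro ⟨b, hb, h0⟩
      exact ho b (Multiset.mem_cons_of_mem hb) h0
  induction k with
  | zero => exact fun L hL p hp hp0 => key 0 L hL p hp hp0 (sp_zero hp)
  | succ k ih =>
    intro L hL p hp hp0
    by_cases hcl : ∀ l ∈ L, ¬ IsUnit l → (L.filter (fun m => l ∣ m)).prod ∣ p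
    · exact key (k + 1) L hL p hp hp0 (prod_dvd_of_classes _ L rfl hL p hcl)
    · push Not at hcl
      obtain ⟨l, hl, hu, hnd⟩ := hcl
      have hAl := hL l hl
      obtain ⟨i, hi⟩ := exists_lc hAl hu
      set ρ : MvPolynomial (Fin n) F := -(C (lc i l)⁻¹ * l) with hρ
      have hρd : ρ.totalDegree ≤ 1 := by
        rw [hρ, totalDegree_neg]
        refine (totalDegree_mul _ _).trans ?_
        rw [totalDegree_C, zero_add]
        exact hAl.2
      have hsig : ∀ m : MvPolynomial (Fin n) F, m.totalDegree ≤ 1 →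
          sig i ρ m = m - C (lc i m * (lc i l)⁻¹) * l := by
        intro m hm
        rw [sig_affine i ρ hm, hρ, C_mul]
        ring
      have h0 : sig i ρ l = 0 := by
        rw [hsig l hAl.2, mul_inv_cancel₀ hi, C_1, one_mul, sub_self]
      -- some low coefficient is not zero
      have hex : ∃ j, j < (L.filter (fun m => l ∣ m)).card ∧ (psi i ρ p).coeff j ≠ 0 := by
        by_contra hno
        push Not at hno
        apply hnd
        have h1 := pow_dvd_of_coeff hno
        obtain ⟨κ, hκ, h3⟩ := prod_of_dvd hAl hu (L.filter (fun m => l ∣ m)) fun m hm =>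
          ⟨hL m (Multiset.mem_filter.1 hm).1, (Multiset.mem_filter.1 hm).2⟩
        have h4 : -ρ = C (lc i l)⁻¹ * l := by rw [hρ, neg_neg]
        rw [h4, mul_pow] at h1
        rw [h3]
        have h5 : IsUnit (C κ : MvPolynomial (Fin n) F) := (Ne.isUnit hκ).map C
        rw [IsUnit.mul_left_dvd h5]
        exact (dvd_mul_left _ _).trans h1
      obtain ⟨j, hj, hg⟩ := hex
      have hmem := coeff_mem i hAl hu hρd h0 hL hp hj
      obtain ⟨I, hI, Q, hQ, hfin⟩ := ih _ (by
        intro m hm
        obtain ⟨m', hm', rfl⟩ := Multiset.mem_map.1 hm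
        have hm2 := Multiset.mem_filter.1 hm'
        have hA := hL m' hm2.1
        constructor
        · intro h
          rw [hsig m' hA.2, sub_eq_zero] at h
          exact hm2.2 (by rw [h]; exact dvd_mul_left _ _)
        · rw [sig_affine i ρ hA.2]
          refine (totalDegree_add _ _).trans (max_le hA.2 ?_)
          refine (totalDegree_mul _ _).trans ?_
          rw [totalDegree_C, zero_add]
          exact hρd) _ hmem hg
      refine ⟨insert i I, (Finset.card_insert_le _ _).trans (by omega), Q, hQ, ?_⟩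
      intro o ho
      obtain ⟨w, hw, hne⟩ := hfin o ho
      set x : Fin n → F := fun i => o i + w i with hx
      have hP : (psi i ρ p).map (eval x) ≠ 0 := by
        intro h
        apply hne
        have := congrArg (fun P => P.coeff j) h
        simpa using this
      obtain ⟨τ, hτ⟩ : ∃ τ : F, Polynomial.eval τ ((psi i ρ p).map (eval x)) ≠ 0 := by
        by_contra h
        push Not at h
        exact hP (Polynomial.funext fun t => by rw [h t, Polynomial.eval_zero])
      rw [eval_map_psi] at hτ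
      refine ⟨fun j' => if j' = i then x i + eval x ρ + τ - o i else w j', ?_, ?_⟩
      · intro j' hj'
        rw [Finset.mem_insert, not_or] at hj'
        simp only [if_neg hj'.1]
        exact hw j' hj'.2
      · have h6 : (fun j' => o j' + if j' = i then x i + eval x ρ + τ - o i else w j') =
            fun j' => if j' = i then x i + eval x ρ + τ else x j' := by
          funext j'
          split_ifs with h
          · subst h; ring
          · rfl
        rw [h6]
        exact hτ

/-- the generator -/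
theorem gen_sp_ne_zero [CharZero F] {k D : ℕ} {L : Multiset (MvPolynomial (Fin n) F)}
    (hL : ∀ l ∈ L, Aff l) {p : MvPolynomial (Fin n) F} (hp : p ∈ Sp k D L) (hp0 : p ≠ 0) :
    S3.gen F n (max 1 D + k) p ≠ 0 := by
  intro hf
  obtain ⟨I, hI, Q, hQ, hfin⟩ := exists_flat D k L hL p hp hp0
  obtain ⟨x, hx⟩ : ∃ x : Fin (max 1 D) ⊕ Fin (max 1 D) → F,
      eval x (S3.gen F n (max 1 D) Q.prod) ≠ 0 := by
    by_contra h
    exact S3.gen_prod_ne_zero Q hQ (MvPolynomial.funext fun x => by
      rw [map_zero]; by_contra hx; exact h ⟨x, hx⟩)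
  set u : Fin n → F := S3.pt (fun i => x (Sum.inl i)) (fun i => x (Sum.inr i)) with hu
  have hx' : eval u Q.prod ≠ 0 := by
    rw [S3.eval_gen] at hx
    exact hx
  obtain ⟨w, hw, hne⟩ := hfin u (by
    intro b hb h0
    apply hx'
    rw [map_multiset_prod, Multiset.prod_eq_zero_iff, Multiset.mem_map]
    exact ⟨b, hb, h0⟩)
  obtain ⟨y, z, hyz⟩ := S3.exists_seeds I hI w hw
  apply hne
  have h5 := S3.aeval_pt_of_gen hf (R := F)
    (Fin.append (fun i => x (Sum.inl i)) y) (Fin.append (fun i => x (Sum.inr i)) z)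
  rw [aeval_eq_eval] at h5
  have h6 : (fun i => u i + w i) = (S3.pt
      (Fin.append (fun i => x (Sum.inl i)) y) (Fin.append (fun i => x (Sum.inr i)) z) :
        Fin n → F) := by
    funext k
    rw [S3.pt_append, hyz]
  rw [h6]
  exact h5

end Pool.Agent.Lib.MP_64d474_lc.OD
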