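import Pool.Agent.Lib.MP_64d474_lc.FV.Jac66
import Pool.Agent.Lib.MP_64d474_lc.FV.J95
import Pool.Agent.Lib.MP_64d474_lc.FV.K97
import Pool.Agent.Lib.MP_64d474_lc.OD.Main23

set_option autoImplicit false

/-!
# Determinants with few factors off the diagonal, and all polynomials of bounded transcendence
degree in them
-/

namespace Pool.Agent.Lib.MP_64d474_lc.OD

open MvPolynomial

universe u

variable {F : Type u} [Field F] {n : ℕ}

theorem sp_mono' {k k' D D' : ℕ} (h : k ≤ k') (h' : D ≤ D')
    (L : Multiset (MvPolynomial (Fin n) F)) : Sp k D L ≤ Sp k' D' L :=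
  Submodule.span_mono fun _ ⟨S, R, h1, h2, c, hc, h3⟩ =>
    ⟨S, R, h1, h2.trans h, c, hc.trans h', h3⟩

theorem sp_mul_mem {k₁ k₂ D₁ D₂ : ℕ} {L₁ L₂ : Multiset (MvPolynomial (Fin n) F)}
    {p q : MvPolynomial (Fin n) F} (hp : p ∈ Sp k₁ D₁ L₁) (hq : q ∈ Sp k₂ D₂ L₂) :
    p * q ∈ Sp (k₁ + k₂) (D₁ + D₂) (L₁ + L₂) := by
  induction hp using Submodule.span_induction with
  | mem x hx =>
    obtain ⟨S, R, h1, h2, c, hc, rfl⟩ := hx
    induction hq using Submodule.span_induction with
    | mem y hy =>
      obtain ⟨S', R', h1', h2', c', hc', rfl⟩ := hy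
      have h3 : c * R.prod * (c' * R'.prod) = (c * c') * (R + R').prod := by
        rw [Multiset.prod_add]; ring
      rw [h3]
      refine sp_gen (S := S + S') ?_ ?_ ((totalDegree_mul _ _).trans (Nat.add_le_add hc hc'))
      · rw [← h1, ← h1']; abel
      · rw [Multiset.card_add]; omega
    | zero => rw [mul_zero]; exact Submodule.zero_mem _
    | add x y _ _ hx hy => rw [mul_add]; exact Submodule.add_mem _ hx hy
    | smul a x _ hx => rw [mul_smul_comm]; exact Submodule.smul_mem _ _ hx
  | zero => rw [zero_mul]; exact Submodule.zero_mem _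
  | add x y _ _ hx hy => rw [add_mul]; exact Submodule.add_mem _ hx hy
  | smul a x _ hx => rw [smul_mul_assoc]; exact Submodule.smul_mem _ _ hx

theorem totalDegree_pderiv_le' (i : Fin n) (p : MvPolynomial (Fin n) F) :
    (pderiv i p).totalDegree ≤ p.totalDegree - 1 := by
  classical
  rw [p.as_sum, map_sum]
  refine totalDegree_finsetSum_le fun e he => ?_
  rw [pderiv_monomial]
  by_cases h : coeff e p * (e i : F) = 0
  · rw [h, monomial_zero, totalDegree_zero]; exact Nat.zero_le _
  · rw [totalDegree_monomial _ h]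
    have hei : e i ≠ 0 := by
      intro h0
      apply h
      rw [h0, Nat.cast_zero, mul_zero]
    have h1 : (e - Finsupp.single i 1) + Finsupp.single i 1 = e :=
      tsub_add_cancel_of_le (Finsupp.single_le_iff.2 (Nat.one_le_iff_ne_zero.2 hei))
    have h2 : ((e - Finsupp.single i 1).sum fun _ e => e) + 1 = e.sum fun _ e => e := by
      conv_rhs => rw [← h1]
      rw [Finsupp.sum_add_index' (fun _ => rfl) (fun _ _ _ => rfl)]
      simp
    have h3 := le_totalDegree he
    have h4 : ((∑ v ∈ p.support, monomial v (coeff v p)).totalDegree) = p.totalDegree := by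
      rw [← p.as_sum]
    rw [h4]
    omega

theorem sp_pderiv (i : Fin n) {k D : ℕ} {L : Multiset (MvPolynomial (Fin n) F)}
    (hL : ∀ l ∈ L, Aff l) {p : MvPolynomial (Fin n) F} (hp : p ∈ Sp k D L) :
    pderiv i p ∈ Sp (k + 1) D L := by
  have key : ∀ (c : MvPolynomial (Fin n) F), c.totalDegree ≤ D →
      ∀ R : Multiset (MvPolynomial (Fin n) F), (∀ l ∈ R, Aff l) →
      pderiv i (c * R.prod) ∈ Sp 1 D R := by
    intro c hc R
    induction R using Multiset.induction_on with
    | empty =>
      intro _
      have h := sp_gen (k := 1) (D := D) (L := 0) (S := 0) (R := 0) (c := pderiv i c)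
        (by simp) (by simp) ((totalDegree_pderiv_le' i c).trans (by omega))
      simpa using h
    | cons m R ih =>
      intro hR
      have h1 : c * (m ::ₘ R).prod = (c * R.prod) * m := by rw [Multiset.prod_cons]; ring
      rw [h1, Derivation.leibniz, smul_eq_mul, smul_eq_mul]
      refine Submodule.add_mem _ ?_ ?_
      · have hA := hR m (Multiset.mem_cons_self _ _)
        have h2 : (pderiv i m).totalDegree = 0 := by
          have := totalDegree_pderiv_le' i m
          have := hA.2
          omega
        rw [totalDegree_eq_zero_iff_eq_C] at h2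
        rw [h2, mul_comm, C_mul']
        refine Submodule.smul_mem _ _ ?_
        exact sp_gen (S := {m}) (by simp) (by simp) hc
      · rw [mul_comm]
        exact sp_mul m (ih fun l hl => hR l (Multiset.mem_cons_of_mem hl))
  induction hp using Submodule.span_induction with
  | mem x hx =>
    obtain ⟨S, R, h1, h2, c, hc, rfl⟩ := hx
    have h3 := key c hc R fun l hl => hL l (h1 ▸ Multiset.mem_add.2 (Or.inr hl))
    clear hL
    have h4 : ∀ {q : MvPolynomial (Fin n) F}, q ∈ Sp 1 D R → q ∈ Sp (k + 1) D L := by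
      intro q hq
      induction hq using Submodule.span_induction with
      | mem y hy =>
        obtain ⟨S', R', h1', h2', c', hc', rfl⟩ := hy
        refine sp_gen (S := S + S') ?_ ?_ hc'
        · rw [← h1, ← h1']; abel
        · rw [Multiset.card_add]; omega
      | zero => exact Submodule.zero_mem _
      | add x y _ _ hx hy => exact Submodule.add_mem _ hx hy
      | smul a x _ hx => exact Submodule.smul_mem _ _ hx
    exact h4 h3
  | zero => rw [map_zero]; exact Submodule.zero_mem _
  | add x y _ _ hx hy => rw [map_add]; exact Submodule.add_mem _ hx hy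
  | smul a x _ hx => rw [Derivation.map_smul]; exact Submodule.smul_mem _ _ hx

theorem sp_prod {ι : Type*} {k D : ℕ} (s : Finset ι) (L : ι → Multiset (MvPolynomial (Fin n) F))
    (f : ι → MvPolynomial (Fin n) F) (h : ∀ j ∈ s, f j ∈ Sp k D (L j)) :
    ∏ j ∈ s, f j ∈ Sp (s.card * k) (s.card * D) (∑ j ∈ s, L j) := by
  classical
  induction s using Finset.induction_on with
  | empty =>
    have h := sp_gen (k := 0) (D := 0) (L := (0 : Multiset (MvPolynomial (Fin n) F)))
      (S := 0) (R := 0) (c := 1) (by simp) (by simp) (by simp)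
    simpa using h
  | insert x s hx ih =>
    rw [Finset.prod_insert hx, Finset.sum_insert hx, Finset.card_insert_of_notMem hx]
    have h1 := sp_mul_mem (h x (Finset.mem_insert_self _ _))
      (ih fun j hj => h j (Finset.mem_insert_of_mem hj))
    refine sp_mono' ?_ ?_ _ h1
    · rw [Nat.succ_mul]; omega
    · rw [Nat.succ_mul]; omega

theorem sp_det {ρ k D : ℕ} (L : Fin ρ → Multiset (MvPolynomial (Fin n) F))
    (M : Matrix (Fin ρ) (Fin ρ) (MvPolynomial (Fin n) F)) (h : ∀ j a, M j a ∈ Sp k D (L j)) :
    M.det ∈ Sp (ρ * k) (ρ * D) (∑ j, L j) := by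
  rw [← Matrix.det_transpose, Matrix.det_apply]
  refine Submodule.sum_mem _ fun π _ => ?_
  have h1 : ∏ i, M.transpose (π i) i ∈ Sp (ρ * k) (ρ * D) (∑ j, L j) := by
    have := sp_prod Finset.univ L (fun j => M.transpose (π j) j) (fun j _ => h j (π j))
    simpa using this
  rcases Int.units_eq_one_or (Equiv.Perm.sign π) with h2 | h2
  · rw [h2, one_smul]; exact h1
  · rw [h2, Units.neg_smul, one_smul]; exact Submodule.neg_mem _ h1

/-- all polynomials of transcendence degree at most `r` in sums of products that miss few of their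
affine factors -/
theorem gen_adjoin_ne_zero [CharZero F] {p r k D : ℕ} (f : Fin p → MvPolynomial (Fin n) F)
    (L : Fin p → Multiset (MvPolynomial (Fin n) F)) (hL : ∀ a, ∀ l ∈ L a, Aff l)
    (hf : ∀ a, f a ∈ Sp k D (L a))
    (hr : ∀ s : Finset (Fin p), AlgebraicIndependent F (fun a : s => f a) → s.card ≤ r)
    (h : MvPolynomial (Fin n) F) (hh : h ∈ Algebra.adjoin F (Set.range f)) (h0 : h ≠ 0) :
    S3.gen F n (max 1 (r * D) + r * (k + 1) + r) h ≠ 0 := by
  intro hgen
  refine h0 (FV.jacHit FV.J95.stJ95 FV.rowK97 f hr ?_ h hh hgen)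
  intro ρ e κ hρ hne
  have h1 : (Matrix.of fun j a => pderiv (κ a) (f (e j))).det ∈
      Sp (ρ * (k + 1)) (ρ * D) (∑ j, L (e j)) :=
    sp_det (fun j => L (e j)) _ fun j a => sp_pderiv (κ a) (hL (e j)) (hf (e j))
  have h2 := sp_mono' (Nat.mul_le_mul_right (k + 1) hρ) (Nat.mul_le_mul_right D hρ) _ h1
  refine gen_sp_ne_zero ?_ h2 hne
  intro l hl
  obtain ⟨j, _, hj⟩ := Multiset.mem_sum.1 hl
  exact hL _ l hj

/-- the determinant of a matrix all of whose nonzero terms have at most `K` factors off the
diagonal -/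
theorem det_mem {ι : Type*} [Fintype ι] [DecidableEq ι] {K : ℕ}
    (A : Matrix ι ι (MvPolynomial (Fin n) F)) (hA : ∀ i j, (A i j).totalDegree ≤ 1)
    (hK : ∀ π : Equiv.Perm ι, (∀ i, A (π i) i ≠ 0) →
      (Finset.univ.filter fun i => π i ≠ i).card ≤ K) :
    ∃ L : Multiset (MvPolynomial (Fin n) F), (∀ l ∈ L, Aff l) ∧ A.det ∈ Sp K K L := by
  classical
  let Z : Finset ι := Finset.univ.filter fun i => A i i ≠ 0
  refine ⟨Z.val.map fun i => A i i, ?_, ?_⟩
  · intro l hl
    obtain ⟨i, hi, rfl⟩ := Multiset.mem_map.1 hl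
    exact ⟨(Finset.mem_filter.1 hi).2, hA i i⟩
  · rw [Matrix.det_apply]
    refine Submodule.sum_mem _ fun π _ => ?_
    have h1 : ∏ i, A (π i) i ∈ Sp K K (Z.val.map fun i => A i i) := by
      by_cases hz : ∀ i, A (π i) i ≠ 0
      · let M : Finset ι := Finset.univ.filter fun i => π i ≠ i
        let E : Finset ι := Finset.univ.filter fun i => π i = i
        have hE : E ⊆ Z := by
          intro i hi
          have h2 : π i = i := (Finset.mem_filter.1 hi).2
          have h3 := hz i
          rw [h2] at h3
          exact Finset.mem_filter.2 ⟨Finset.mem_univ _, h3⟩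
        have h2 : ∏ i, A (π i) i = (∏ i ∈ M, A (π i) i) * (E.val.map fun i => A i i).prod := by
          have h3 : (E.val.map fun i => A i i).prod = ∏ i ∈ E, A (π i) i := by
            rw [Finset.prod]
            congr 1
            refine Multiset.map_congr rfl fun i hi => ?_
            have h4 : π i = i := (Finset.mem_filter.1 hi).2
            rw [h4]
          rw [h3, ← Finset.prod_filter_mul_prod_filter_not Finset.univ (fun i => π i = i),
            mul_comm]
        rw [h2]
        refine sp_gen (S := (Z \ E).val.map fun i => A i i) ?_ ?_ ?_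
        · rw [← Multiset.map_add]
          congr 1
          have h5 : (Z \ E).val + E.val = ((Z \ E).disjUnion E Finset.sdiff_disjoint).val := rfl
          rw [h5, Finset.disjUnion_eq_union, Finset.sdiff_union_of_subset hE]
        · rw [Multiset.card_map]
          refine (Finset.card_le_card ?_).trans (hK π hz)
          intro i hi
          refine Finset.mem_filter.2 ⟨Finset.mem_univ _, fun h6 => ?_⟩
          exact (Finset.mem_sdiff.1 hi).2 (Finset.mem_filter.2 ⟨Finset.mem_univ _, h6⟩)
        · refine (totalDegree_finsetProd _ _).trans ?_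
          refine (Finset.sum_le_sum fun i _ => hA (π i) i).trans ?_
          rw [Finset.sum_const, smul_eq_mul, mul_one]
          exact hK π hz
      · push Not at hz
        obtain ⟨i, hi⟩ := hz
        have h7 : ∏ i, A (π i) i = 0 := Finset.prod_eq_zero (Finset.mem_univ i) hi
        rw [h7]
        exact Submodule.zero_mem _
    rcases Int.units_eq_one_or (Equiv.Perm.sign π) with h2 | h2
    · rw [h2, one_smul]; exact h1
    · rw [h2, Units.neg_smul, one_smul]; exact Submodule.neg_mem _ h1

/-- The final statement: polynomials of transcendence degree at most `r` in any number of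
determinants `det A_a`, where every nonzero term of `det A_a` has at most `K` factors off the
diagonal: `2 r (K + 1)` seeds. -/
theorem hit_grid [CharZero F] {p r K N : ℕ} (hK1 : 1 ≤ K) (hr1 : 1 ≤ r) (ν : Fin p → ℕ)
    (A : ∀ a, Matrix (Fin (ν a)) (Fin (ν a)) (MvPolynomial (Fin n) F))
    (hA : ∀ a i j, (A a i j).totalDegree ≤ 1)
    (hK : ∀ a (π : Equiv.Perm (Fin (ν a))), (∀ i, A a (π i) i ≠ 0) →
      (Finset.univ.filter fun i => π i ≠ i).card ≤ K)
    (hr : ∀ s : Finset (Fin p), AlgebraicIndependent F (fun a : s => (A a).det) → s.card ≤ r)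
    (h : MvPolynomial (Fin n) F) (hh : h ∈ Algebra.adjoin F (Set.range fun a => (A a).det))
    (hN : h.totalDegree ≤ N) (h0 : h ≠ 0) :
    ∃ x ∈ S3.grid n N (2 * r * (K + 1)), eval (fun i => ((x i : ℤ) : F)) h ≠ 0 := by
  by_contra hc
  push Not at hc
  choose L hL hLm using fun a => det_mem (A a) (hA a) (hK a)
  have h1 := gen_adjoin_ne_zero (fun a => (A a).det) L hL hLm hr h hh h0
  have h2 : max 1 (r * K) + r * (K + 1) + r = 2 * r * (K + 1) := by
    rw [max_eq_right (Nat.mul_pos hr1 hK1)]; ring
  rw [h2] at h1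
  exact h1 (S3.gen_eq_zero_of_grid h hN hc)

end Pool.Agent.Lib.MP_64d474_lc.OD
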